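import Mathlib
import Pool.Agent.Helper54_Angles.Main

/-!
# Random angles realisable by `m` points in fixed dimension

Affirmative answer to Q1 (hence also to Q2) for every dimension `d ≥ 2`: the probability
`P(d,m,n_d(m))` that `n_d(m) = dm - binom(d+1,2) - 1` independent uniform angles are realisable by
`m` points in `ℝ^d` tends to one as `m → ∞`.

Idea of the proof. All points except the origin `v = 0` are `r_q u_q`; `d - 1` angles at `v` fix the
direction `u_q` and one angle at a point `c` fixes the radius `r_q`. A frame of directions near an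
orthonormal basis and a finite net of auxiliary directions `e` (built with Brouwer's fixed point
theorem from angles lying in prescribed windows) allow arbitrary moderate angles as direction
angles. Angles close to `0` or to `π` are used as radial angles; the ones close to `π` are seen at
`c` between `q` and a point `w` behind `c`, for which `angle v c w` is the largest given angle
`π - δ`; the direction of `w` is within `δ` of that of `c` and is fixed by `d - 1` angles which are
within a small multiple of `δ` of angles used for `c`; with high probability such angles exist.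
-/

set_option autoImplicit false

namespace Pool.Agent.Results.MP_9f66b2_co.RandomAngles

open Set MeasureTheory Filter Topology

/-- The uniform distribution on the interval `(0,π)`. -/
noncomputable def uniformAngle : Measure ℝ :=
  (volume (Ioo 0 Real.pi))⁻¹ • volume.restrict (Ioo 0 Real.pi)

/-- The tuple `θ` is realisable by `m` points in `ℝ^d`. -/
def Realisable (d m n : ℕ) (θ : Fin n → ℝ) : Prop :=
  ∃ v : Fin m → EuclideanSpace ℝ (Fin d), ∀ i, ∃ a b c, v a ≠ v b ∧ v c ≠ v b ∧
    EuclideanGeometry.angle (v a) (v b) (v c) = θ i

/-- The probability `P(d,m,n)` that `n` independent uniform angles are realisable by `m` points in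
`ℝ^d`. -/
noncomputable def P (d m n : ℕ) : ENNReal :=
  Measure.pi (fun _ : Fin n => uniformAngle) {θ | Realisable d m n θ}

/-- The (outer) probability that `n` independent uniform angles are not realisable by `m` points in
`ℝ^d`. -/
noncomputable def Pfail (d m n : ℕ) : ENNReal :=
  Measure.pi (fun _ : Fin n => uniformAngle) {θ | ¬ Realisable d m n θ}

/-- The number `n_d(m)` of degrees of freedom. -/
def dof (d m : ℕ) : ℕ := d * m - (d + 1).choose 2 - 1

/-- For every dimension `d ≥ 2`, `P(d,m,n_d(m)) → 1` as `m → ∞`. -/
theorem result (d : ℕ) (hd : 2 ≤ d) :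
    Tendsto (fun m => P d m (dof d m)) atTop (𝓝 1) ∧
      Tendsto (fun m => Pfail d m (dof d m)) atTop (𝓝 0) := by
  have hu : uniformAngle = Pool.Agent.Helper54_Angles.uni := by
    rw [uniformAngle, Pool.Agent.Helper54_Angles.uni, Real.volume_Ioo, sub_zero]
  have hfail : Tendsto (fun m => Pfail d m (dof d m)) atTop (𝓝 0) := by
    rw [ENNReal.tendsto_nhds_zero]
    intro ε hε
    obtain ⟨r, hr0, hrε⟩ := ENNReal.lt_iff_exists_nnreal_btwn.1 hε
    have hr : (0 : ℝ) < r := by exact_mod_cast hr0
    have hγ : (0 : ℝ) < min 1 (r / 6) := lt_min one_pos (div_pos hr (by norm_num))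
    filter_upwards [Pool.Agent.Helper54_Angles.main hd hγ (min_le_left _ _)] with m hm
    rw [Pfail, hu]
    refine le_trans hm ?_
    calc 6 * ENNReal.ofReal (min 1 (r / 6)) ≤ ENNReal.ofReal 6 * ENNReal.ofReal (r / 6) := by
          rw [show ENNReal.ofReal 6 = (6 : ENNReal) by simp]
          exact mul_le_mul' le_rfl (ENNReal.ofReal_le_ofReal (min_le_right _ _))
      _ = r := by
          rw [← ENNReal.ofReal_mul (by norm_num)]
          have : (6 : ℝ) * (r / 6) = r := by ring
          rw [this, ENNReal.ofReal_coe_nnreal]
      _ ≤ ε := hrε.le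
  refine ⟨?_, hfail⟩
  have hsub : Tendsto (fun m => 1 - Pfail d m (dof d m)) atTop (𝓝 (1 - 0)) :=
    ENNReal.Tendsto.sub tendsto_const_nhds hfail (Or.inl ENNReal.one_ne_top)
  rw [tsub_zero] at hsub
  refine tendsto_of_tendsto_of_tendsto_of_le_of_le hsub tendsto_const_nhds (fun m => ?_)
    (fun m => ?_)
  · show 1 - Pfail d m (dof d m) ≤ P d m (dof d m)
    rw [tsub_le_iff_right]
    rw [P, Pfail, hu]
    have h1 : (Measure.pi fun _ : Fin (dof d m) => Pool.Agent.Helper54_Angles.uni) univ = 1 :=
      measure_univ
    rw [← h1]
    refine le_trans (measure_mono ?_) (measure_union_le _ _)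
    intro θ _
    exact em _
  · show P d m (dof d m) ≤ 1
    rw [P, hu]
    exact prob_le_one

end Pool.Agent.Results.MP_9f66b2_co.RandomAngles
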